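import Pool.Agent.E8helper10.AV.Core

/-!
AV-CLAIM: the two cases (long and short arcs `s`) and the theorem.
-/

set_option autoImplicit false

namespace Pool.Agent.E8helper10.AV

open Finset Pool.Agent.E8helper57.AV

variable {n : ℕ} {A : Arr n} (s : Fin n)

theorem du_ou {k : ℕ} {c : Fin n} (h : A.du k s c (A.en c)) : A.ou k s c (A.en c) := by
  refine ⟨h.1, ?_⟩
  have h1 := h.2.2.2
  have h2 : #{d : Fin n | s < d ∧ d < c ∧ A.pr d (A.en c) = true} ≤
      #{d : Fin n | s < d ∧ d ≠ c ∧ (A.pr d (A.en c) = true ∨ A.pr d (A.en c + A.M) = true)} := by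
    apply card_le_card
    intro d hd
    rw [mem_filter] at hd ⊢
    exact ⟨hd.1, hd.2.1, hd.2.2.1.ne, Or.inl hd.2.2.2⟩
  omega

theorem du_iu {k : ℕ} {c : Fin n} (h : A.du k s c (A.en c)) : A.iu k s c (A.en c) := by
  refine ⟨h.2.1, h.2.2.1, ?_⟩
  have h1 := h.2.2.2
  have h2 : #{d : Fin n | s < d ∧ d ≠ c ∧
        (A.pr d (A.en c + A.M) = true ∨ (c < d ∧ A.pr d (A.en c) = true))} ≤
      #{d : Fin n | s < d ∧ d ≠ c ∧ (A.pr d (A.en c) = true ∨ A.pr d (A.en c + A.M) = true)} := by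
    apply card_le_card
    intro d hd
    rw [mem_filter] at hd ⊢
    refine ⟨hd.1, hd.2.1, hd.2.2.1, ?_⟩
    rcases hd.2.2.2 with h | h
    · exact Or.inr h
    · exact Or.inl h.2
  omega

theorem onl_eq (q : ℤ) : A.onl s q = #(Sq A s q) := rfl

theorem onl_add (q : ℤ) : A.onl s (q + A.M) = A.onl s q := by
  unfold Arr.onl
  congr 1
  ext d
  rw [mem_filter, mem_filter]
  have h : A.pr d (q + A.M + A.M) = A.pr d q := A.pr_congr d ⟨1, by ring⟩
  rw [h, or_comm]

theorem onl_mul (q : ℤ) (m : ℕ) : A.onl s (q + A.M * m) = A.onl s q := by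
  induction m with
  | zero => simp
  | succ m ih =>
    have : q + A.M * ((m + 1 : ℕ) : ℤ) = (q + A.M * m) + A.M := by push_cast; ring
    rw [this, onl_add, ih]

theorem onl_dvd {p q : ℤ} (h : (A.M : ℤ) ∣ p - q) : A.onl s p = A.onl s q := by
  obtain ⟨j, hj⟩ := h
  rcases Int.le_total 0 j with h1 | h1
  · have : p = q + A.M * (j.toNat : ℤ) := by
      rw [Int.toNat_of_nonneg h1]; linarith
    rw [this, onl_mul]
  · have : q = p + A.M * ((-j).toNat : ℤ) := by
      rw [Int.toNat_of_nonneg (by omega)]; linarith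
    rw [this, onl_mul]

theorem le_card_R (K : ℕ) (q : ℤ) : min (K + 1) (A.onl s q) ≤ #(R A s K q) := by
  rw [onl_eq]
  exact card_fs (ky_inj A q)

theorem long_case {k : ℕ} (hs : s.val ≤ k) (h : A.pr s (A.st s + A.M) = true) :
    k + 1 + #{c : Fin n | s < c ∧ A.du k s c (A.en c)} ≤
    s.val + #{c : Fin n | s < c ∧ A.ou k s c (A.st c)} + #{c : Fin n | s < c ∧ A.iu k s c (A.st c)} +
    #{c : Fin n | s < c ∧ A.ou k s c (A.en c)} + #{c : Fin n | s < c ∧ A.iu k s c (A.en c)} +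
    ∑ b : Fin n, (if s < b then A.N k s b - 1 else 0) +
    #{b : Fin n | s < b ∧ A.pr s (A.st b) ∧ A.W k s b (A.st b)} + A.lg k s := by
  have hM := A.M_pos s
  have hgap := A.gap s
  have hlt := A.lt s
  -- the gap is short
  have hlong : A.st s + A.M ≤ A.en s := by
    rw [A.pr_iff] at h
    have e : A.st s + A.M - A.st s - 1 = (A.M : ℤ) - 1 := by ring
    rw [e, Int.emod_eq_of_lt (by omega) (by omega)] at h
    omega
  have hD : ({c : Fin n | s < c ∧ A.du k s c (A.en c)} : Finset (Fin n)) = ∅ := by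
    apply filter_eq_empty_iff.2
    rintro c _ ⟨_, h1, h2, _⟩
    obtain ⟨i, hi1, hi2⟩ := (A.pr_eq_false_iff s _).1 h1
    obtain ⟨j, hj1, hj2⟩ := (A.pr_eq_false_iff s _).1 h2
    -- two points of the gap at distance `M` modulo `2 M`
    have h3 : (0 : ℤ) < A.M * (1 + 2 * j - 2 * i) + A.M := by linarith
    have h4 : A.M * (1 + 2 * j - 2 * i) - A.M < (0 : ℤ) := by linarith
    have h5 : (0 : ℤ) < A.M * (2 + 2 * j - 2 * i) := by linarith
    have h6 : A.M * (2 * j - 2 * i) < (0 : ℤ) := by linarith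
    have h7 : 0 < 2 + 2 * j - 2 * i := by
      by_contra hcon
      push Not at hcon
      have := mul_nonpos_of_nonneg_of_nonpos (show (0 : ℤ) ≤ A.M by omega) hcon
      omega
    have h8 : 2 * j - 2 * i < 0 := by
      by_contra hcon
      push Not at hcon
      have := mul_nonneg (show (0 : ℤ) ≤ A.M by omega) hcon
      omega
    omega
  have hcore := core s hs (A.st s + 2 * A.M) ∅ ∅ (empty_subset _) (empty_subset _) (by
    intro b hb hnot
    push Not at hnot
    obtain ⟨i, hi1, hi2, hi3⟩ := hnot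
    obtain ⟨q, hq1, hq2, hq3, hq4⟩ := down' (fun x => b ∈ R A s (k - s.val) x) hi2 hi3 hb
    exact ⟨q, by omega, hq2, by simp, by simp,
      Or.inl ⟨hq2, hq3, hq4 (q + 1) (by omega) (by omega)⟩⟩)
  have h1 := le_card_R s (k - s.val) (A.st s + 2 * A.M) (A := A)
  rw [onl_dvd s (p := A.st s + 2 * A.M) (q := A.st s) ⟨2, by ring⟩] at h1
  have h2 : A.lg k s = k + 1 - A.onl s (A.st s) := by
    unfold Arr.lg
    rw [if_pos h]
  rw [hD, h2]
  simp only [card_empty] at hcore ⊢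
  omega

theorem short_case {k : ℕ} (hs : s.val ≤ k) (h : A.pr s (A.st s + A.M) = false)
    (hex : ∃ p : ℤ, k + 1 ≤ A.onl s p + s.val) :
    k + 1 + #{c : Fin n | s < c ∧ A.du k s c (A.en c)} ≤
    s.val + #{c : Fin n | s < c ∧ A.ou k s c (A.st c)} + #{c : Fin n | s < c ∧ A.iu k s c (A.st c)} +
    #{c : Fin n | s < c ∧ A.ou k s c (A.en c)} + #{c : Fin n | s < c ∧ A.iu k s c (A.en c)} +
    ∑ b : Fin n, (if s < b then A.N k s b - 1 else 0) +
    #{b : Fin n | s < b ∧ A.pr s (A.st b) ∧ A.W k s b (A.st b)} := by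
  classical
  have hM := A.M_pos s
  have hgap := A.gap s
  have hlt := A.lt s
  have hshort : A.en s < A.st s + A.M := by
    by_contra hcon
    push Not at hcon
    have : A.pr s (A.st s + A.M) = true := by
      rw [A.pr_iff]
      have e : A.st s + A.M - A.st s - 1 = (A.M : ℤ) - 1 := by ring
      rw [e, Int.emod_eq_of_lt (by omega) (by omega)]
      omega
    rw [h] at this
    exact absurd this (by decide)
  obtain ⟨p, hp⟩ := hex
  -- a point of the gap on the line of `p`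
  obtain ⟨p0, hp1, hp2, hp3⟩ : ∃ p0 : ℤ, A.en s + 1 ≤ p0 ∧ p0 ≤ A.st s + 2 * A.M ∧
      (A.M : ℤ) ∣ p0 - p := by
    refine ⟨A.en s + 1 + (p - A.en s - 1) % A.M, ?_, ?_, ?_⟩
    · have := Int.emod_nonneg (p - A.en s - 1) (show (A.M : ℤ) ≠ 0 by omega)
      omega
    · have := Int.emod_lt_of_pos (p - A.en s - 1) hM
      omega
    · have e := Int.emod_add_mul_ediv (p - A.en s - 1) A.M
      exact ⟨-((p - A.en s - 1) / A.M), by linarith⟩
  rw [← onl_dvd s hp3] at hp
  -- the window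
  obtain ⟨w, hw1, hw2, hw3, hw4⟩ : ∃ w : ℤ, A.en s + 1 ≤ w ∧ w + A.M ≤ A.st s + 2 * A.M ∧
      w ≤ p0 ∧ p0 ≤ w + A.M := ⟨max (A.en s + 1) (p0 - A.M), by omega, by omega, by omega, by omega⟩
  set D : Finset (Fin n) := {c : Fin n | s < c ∧ A.du k s c (A.en c)} with hDdef
  set D1 : Finset (Fin n) := D.filter
    (fun c => ¬ ∃ q : ℤ, w ≤ q ∧ q < w + A.M ∧ (2 * A.M : ℤ) ∣ q - A.en c) with hD1def
  set D2 : Finset (Fin n) := D.filter
    (fun c => ∃ q : ℤ, w ≤ q ∧ q < w + A.M ∧ (2 * A.M : ℤ) ∣ q - A.en c) with hD2def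
  have hDcard : #D = #D1 + #D2 := by
    have := card_filter_add_card_filter_not (s := D)
      (fun c => ∃ q : ℤ, w ≤ q ∧ q < w + A.M ∧ (2 * A.M : ℤ) ∣ q - A.en c)
    rw [← hD1def, ← hD2def] at this
    omega
  have out1 : ∀ c ∈ D1, ∀ q, (2 * A.M : ℤ) ∣ q - A.en c → ¬ (w ≤ q ∧ q < w + A.M) := by
    intro c hc q hq hwq
    rw [hD1def, mem_filter] at hc
    exact hc.2 ⟨q, hwq.1, hwq.2, hq⟩
  have out2 : ∀ c ∈ D2, ∀ q, (2 * A.M : ℤ) ∣ q + A.M - A.en c → ¬ (w ≤ q ∧ q < w + A.M) := by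
    intro c hc q hq hwq
    rw [hD2def, mem_filter] at hc
    obtain ⟨_, q', h1, h2, h3⟩ := hc
    have h4 := dvd_sub hq h3
    have e : q + A.M - A.en c - (q' - A.en c) = q + A.M - q' := by ring
    rw [e] at h4
    have h5 := Int.le_of_dvd (by omega) h4
    omega
  have duD : ∀ c, c ∈ D1 ∨ c ∈ D2 → A.du k s c (A.en c) := by
    rintro c (hc | hc)
    · rw [hD1def, mem_filter, hDdef, mem_filter] at hc
      exact hc.1.2.2
    · rw [hD2def, mem_filter, hDdef, mem_filter] at hc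
      exact hc.1.2.2
  have hsub1 : D1 ⊆ ({c : Fin n | s < c ∧ A.ou k s c (A.en c)} : Finset (Fin n)) := by
    intro c hc
    rw [hD1def, mem_filter, hDdef, mem_filter] at hc
    exact mem_filter.2 ⟨mem_univ _, hc.1.2.1, du_ou s hc.1.2.2⟩
  have hsub2 : D2 ⊆ ({c : Fin n | s < c ∧ A.iu k s c (A.en c)} : Finset (Fin n)) := by
    intro c hc
    rw [hD2def, mem_filter, hDdef, mem_filter] at hc
    exact mem_filter.2 ⟨mem_univ _, hc.1.2.1, du_iu s hc.1.2.2⟩
  -- kept steps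
  have kept : ∀ q : ℤ, (∀ c, A.du k s c (A.en c) → (A.M : ℤ) ∣ q - A.en c →
      ¬ (w ≤ q ∧ q < w + A.M) → False) →
      (∀ c ∈ D1, ¬ (2 * A.M : ℤ) ∣ q - A.en c) ∧ (∀ c ∈ D2, ¬ (2 * A.M : ℤ) ∣ q + A.M - A.en c) := by
    intro q hq
    constructor
    · intro c hc hdvd
      exact hq c (duD c (Or.inl hc)) (A.two_mul_dvd hdvd) (out1 c hc q hdvd)
    · intro c hc hdvd
      refine hq c (duD c (Or.inr hc)) ?_ (out2 c hc q hdvd)
      have := dvd_sub (A.two_mul_dvd hdvd) (dvd_refl (A.M : ℤ))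
      have e : q + A.M - A.en c - A.M = q - A.en c := by ring
      rwa [e] at this
  have hcore := core s hs p0 D1 D2 hsub1 hsub2 (by
    intro b hb hnot
    by_cases c1 : ∃ i, w ≤ i ∧ i ≤ p0 ∧ b ∉ R A s (k - s.val) i
    · obtain ⟨i, hi1, hi2, hi3⟩ := c1
      obtain ⟨q, hq1, hq2, hq3, hq4⟩ := down' (fun x => b ∈ R A s (k - s.val) x) hi2 hi3 hb
      obtain ⟨k1, k2⟩ := kept q (fun c _ _ hout => hout ⟨by omega, by omega⟩)
      exact ⟨q, by omega, by omega, k1, k2,
        Or.inl ⟨hq2, hq3, hq4 (q + 1) (by omega) (by omega)⟩⟩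
    push Not at c1
    by_cases c2 : ∃ i, p0 ≤ i ∧ i ≤ A.st s + 2 * A.M ∧ b ∉ R A s (k - s.val) i
    · obtain ⟨i, hi1, hi2, hi3⟩ := c2
      obtain ⟨q, hq1, hq2, hq3, hq4⟩ := up' (fun x => b ∈ R A s (k - s.val) x) hi1 hi3 hb
      have hbq : b ∈ R A s (k - s.val) q := hq4 q hq1 le_rfl
      obtain ⟨k1, k2⟩ := kept q (fun c hdu hdvd hout => by
        have hqw : w + A.M ≤ q := by
          by_contra hcon
          exact hout ⟨by omega, by omega⟩
        have hbc : b = c := by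
          by_contra hbc
          exact hq3 ((du_R s hs hdu hdvd).2 b hbq hbc)
        have hdvd' : (A.M : ℤ) ∣ (q - A.M) - A.en c := by
          have := dvd_sub hdvd (dvd_refl (A.M : ℤ))
          have e : q - A.en c - A.M = (q - A.M) - A.en c := by ring
          rwa [e] at this
        apply du_notMem s hdu hdvd' (k - s.val)
        rw [← hbc]
        by_cases hle : q - A.M + 1 ≤ p0
        · exact c1 _ (by omega) hle
        · exact hq4 _ (by omega) (by omega))
      exact ⟨q, by omega, by omega, k1, k2, Or.inr ⟨hq1, hbq, hq3⟩⟩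
    push Not at c2
    push Not at hnot
    obtain ⟨i, hi1, hi2, hi3⟩ := hnot
    have hiw : i < w := by
      by_contra hcon
      by_cases hle : i ≤ p0
      · exact hi3 (c1 i (by omega) hle)
      · exact hi3 (c2 i (by omega) hi2)
    obtain ⟨q, hq1, hq2, hq3, hq4⟩ := down' (fun x => b ∈ R A s (k - s.val) x) hiw.le hi3
      (c1 w le_rfl hw3)
    have hbq : b ∈ R A s (k - s.val) (q + 1) := hq4 (q + 1) (by omega) (by omega)
    obtain ⟨k1, k2⟩ := kept q (fun c hdu hdvd _ => hq3 ((du_R s hs hdu hdvd).1 b hbq))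
    exact ⟨q, by omega, by omega, k1, k2, Or.inl ⟨by omega, hq3, hbq⟩⟩)
  have h1 := le_card_R s (k - s.val) p0 (A := A)
  omega

/-- **CLAIM** -/
theorem t_CLAIM : S_CLAIM := by
  intro n k A s hs hex
  by_cases h : A.pr s (A.st s + A.M) = true
  · exact long_case s hs h
  · have := short_case s hs (by simpa using h) hex
    omega

end Pool.Agent.E8helper10.AV
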