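import Pool.Agent.E8helper10.AV.Step

/-!
AV-CLAIM: the arcs which stay in `R` on the whole gap of `s`, and the counting argument.
-/

set_option autoImplicit false

namespace Pool.Agent.E8helper10.AV

open Finset Pool.Agent.E8helper57.AV

variable {n : ℕ} {A : Arr n} (s : Fin n)

theorem W_false {k : ℕ} {p : ℤ} (b : Fin n) (hp : A.pr s p = false) : A.W k s b p = false := by
  unfold Arr.W see Arr.side
  rw [hp]
  rfl

theorem W_congr {k : ℕ} {p q : ℤ} (a b : Fin n) (h : (2 * A.M : ℤ) ∣ p - q) :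
    A.W k a b p = A.W k a b q := by
  unfold Arr.W
  rw [A.side_congr h, A.side_congr (p := p + A.M) (q := q + A.M)]
  have : p + A.M - (q + A.M) = p - q := by ring
  rwa [this]

theorem W_of_mem {k : ℕ} {p q : ℤ} {b : Fin n} (hp : A.pr s p = true)
    (h : ∀ d, d ≠ s → A.pr d p = A.pr d q ∧ A.pr d (p + A.M) = A.pr d (q + A.M))
    (hb : b ∈ R A s (k - s.val) q) : A.W k s b p = true := by
  have hsb := lt_of_mem_R s hb
  have h1 := (mem_fs.1 hb).2
  have h2 := ((mem_Sq A s).1 (mem_fs.1 hb).1).2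
  unfold Arr.W see Arr.side
  simp only [Bool.and_eq_true, Bool.or_eq_true, decide_eq_true_eq]
  refine ⟨hp, ?_⟩
  rw [(h b hsb.ne').1, (h b hsb.ne').2]
  by_cases hbq : A.pr b q = true
  · left
    refine ⟨hbq, ?_⟩
    rw [dep1 A s hbq] at h1
    refine le_trans (card_le_card fun d hd => ?_) (h1.trans (Nat.sub_le _ _))
    rw [mem_filter] at hd ⊢
    refine ⟨hd.1, hd.2.1, hd.2.2.1, ?_⟩
    rw [← (h d hd.2.1.ne').1]
    exact hd.2.2.2
  · right
    have hbq' : A.pr b q = false := by simpa using hbq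
    refine ⟨by tauto, ?_⟩
    rw [dep2 A s hbq'] at h1
    refine le_trans (card_le_card fun d hd => ?_) (h1.trans (Nat.sub_le _ _))
    rw [mem_filter] at hd ⊢
    obtain ⟨_, hd1, hd2, hd3⟩ := hd
    refine ⟨mem_univ _, ?_, hd2, ?_⟩
    · rcases hd3 with h3 | h3
      · exact h3.1
      · exact hsb.trans h3.1
    · rw [← (h d hd1).1, ← (h d hd1).2]
      rcases hd3 with h3 | h3
      · exact Or.inl h3.2
      · exact Or.inr h3

theorem down (P : ℤ → Prop) : ∀ (m : ℕ) (a : ℤ), ¬ P a → P (a + m) →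
    ∃ q, a ≤ q ∧ q < a + m ∧ ¬ P q ∧ ∀ i, q < i → i ≤ a + m → P i := by
  intro m
  induction m with
  | zero => intro a h1 h2; simp at h2; exact absurd h2 h1
  | succ m ih =>
    intro a h1 h2
    by_cases h3 : P (a + m)
    · obtain ⟨q, h4, h5, h6, h7⟩ := ih a h1 h3
      refine ⟨q, h4, by push_cast; omega, h6, fun i hi hi' => ?_⟩
      by_cases h8 : i ≤ a + m
      · exact h7 i hi h8
      · have : i = a + (m + 1 : ℕ) := by push_cast at hi' ⊢; omega
        rw [this]; exact h2
    · refine ⟨a + m, by omega, by push_cast; omega, h3, fun i hi hi' => ?_⟩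
      have : i = a + (m + 1 : ℕ) := by push_cast at hi' ⊢; omega
      rw [this]; exact h2

theorem down' (P : ℤ → Prop) {a p : ℤ} (hap : a ≤ p) (h1 : ¬ P a) (h2 : P p) :
    ∃ q, a ≤ q ∧ q < p ∧ ¬ P q ∧ ∀ i, q < i → i ≤ p → P i := by
  have e : a + ((p - a).toNat : ℤ) = p := by omega
  have := down P (p - a).toNat a h1 (by rw [e]; exact h2)
  rwa [e] at this

theorem up' (P : ℤ → Prop) {a p : ℤ} (hap : p ≤ a) (h1 : ¬ P a) (h2 : P p) :
    ∃ q, p ≤ q ∧ q < a ∧ ¬ P (q + 1) ∧ ∀ i, p ≤ i → i ≤ q → P i := by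
  obtain ⟨q, h3, h4, h5, h6⟩ := down' (fun x => P (-x)) (a := -a) (p := -p) (by omega)
    (by simpa using h1) (by simpa using h2)
  refine ⟨-q - 1, by omega, by omega, by simpa using h5, fun i hi hi' => ?_⟩
  simpa using h6 (-i) (by omega) (by omega)

/-- number of beginnings -/
theorem N_two {k : ℕ} {a b : Fin n} {p q : ℤ} (hM : 0 < (A.M : ℤ))
    (hp : A.W k a b p = false) (hp' : A.W k a b (p + 1) = true)
    (hq : A.W k a b q = false) (hq' : A.W k a b (q + 1) = true)
    (hpq : ¬ (2 * A.M : ℤ) ∣ p - q) : 2 ≤ A.N k a b := by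
  have hr : ∀ x : ℤ, ((x % (2 * A.M)).toNat : ℤ) = x % (2 * A.M) := fun x =>
    Int.toNat_of_nonneg (Int.emod_nonneg _ (by omega))
  have hd : ∀ x : ℤ, (2 * A.M : ℤ) ∣ ((x % (2 * A.M)).toNat : ℤ) - x := fun x => by
    rw [hr]
    have := Int.dvd_sub_self_of_emod_eq (rfl : x % (2 * A.M : ℤ) = x % (2 * A.M))
    have e : x % (2 * A.M) - x = -(x - x % (2 * A.M)) := by ring
    rw [e]
    exact (Int.dvd_neg).2 (by
      have e2 := Int.emod_add_mul_ediv x (2 * A.M)
      exact ⟨x / (2 * A.M), by linarith⟩)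
  have hd1 : ∀ x : ℤ, (2 * A.M : ℤ) ∣ (((x % (2 * A.M)).toNat : ℤ) + 1) - (x + 1) := fun x => by
    have := hd x
    have e : (((x % (2 * A.M)).toNat : ℤ) + 1) - (x + 1) = ((x % (2 * A.M)).toNat : ℤ) - x := by
      ring
    rwa [e]
  have hlt : ∀ x : ℤ, (x % (2 * A.M)).toNat < 2 * A.M := fun x => by
    have h1 := Int.emod_lt_of_pos x (show 0 < (2 * (A.M : ℤ)) by omega)
    have h2 := hr x
    omega
  have hne : (p % (2 * A.M)).toNat ≠ (q % (2 * A.M)).toNat := by
    intro h
    apply hpq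
    have h1 := hd p
    have h2 := hd q
    rw [h] at h1
    have := dvd_sub h2 h1
    have e : ((q % (2 * A.M)).toNat : ℤ) - q - (((q % (2 * A.M)).toNat : ℤ) - p) = p - q := by
      ring
    rwa [e] at this
  rw [← card_pair hne]
  apply card_le_card
  intro x hx
  rw [mem_insert, mem_singleton] at hx
  rw [mem_filter, mem_range]
  rcases hx with hx | hx
  · rw [hx, W_congr a b (hd p), W_congr a b (hd1 p)]
    exact ⟨hlt p, hp, hp'⟩
  · rw [hx, W_congr a b (hd q), W_congr a b (hd1 q)]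
    exact ⟨hlt q, hq, hq'⟩

/-- an arc which is in `R` on the whole gap of `s` -/
theorem Q_cases {k : ℕ} {b : Fin n}
    (hQ : ∀ q, A.en s + 1 ≤ q → q ≤ A.st s + 2 * A.M → b ∈ R A s (k - s.val) q) :
    2 ≤ A.N k s b ∨ (A.pr s (A.st b) = true ∧ A.W k s b (A.st b) = true) ∨
      A.pr s (A.st b) = false := by
  have hM := A.M_pos s
  have hgap := A.gap s
  have hlt := A.lt s
  by_cases h1 : A.pr s (A.st b) = false
  · exact Or.inr (Or.inr h1)
  have h1' : A.pr s (A.st b) = true := by simpa using h1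
  by_cases h2 : A.W k s b (A.st b) = true
  · exact Or.inr (Or.inl ⟨h1', h2⟩)
  left
  have h2' : A.W k s b (A.st b) = false := by simpa using h2
  obtain ⟨j, hj1, hj2⟩ := (A.pr_iff_exists s (A.st b)).1 h1'
  have hp0 : A.W k s b (A.st b + 2 * A.M * j) = false := by
    rw [W_congr (q := A.st b)]
    · exact h2'
    · exact ⟨j, by ring⟩
  have hen : A.W k s b (A.en s) = true := by
    refine W_of_mem s (A.pr_en s) (fun d hd => ?_) (hQ (A.en s + 1) le_rfl (by omega))
    have := only_en A (c := s) (q := A.en s) (by simp) d hd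
    exact ⟨this.1.symm, this.2.symm⟩
  have hst : A.W k s b (A.st s + 1) = true := by
    refine W_of_mem s (q := A.st s + 2 * A.M) (A.pr_st_succ s) (fun d hd => ?_)
      (hQ (A.st s + 2 * A.M) (by omega) le_rfl)
    have := only_st A (c := s) (q := A.st s) (by simp) d hd
    refine ⟨this.1.trans ?_, this.2.trans ?_⟩
    · exact (A.pr_congr d ⟨1, by ring⟩).symm
    · exact (A.pr_congr d ⟨1, by ring⟩).symm
  obtain ⟨q, hq1, hq2, hq3, hq4⟩ := down' (fun x => A.W k s b x = true)
    (a := A.st b + 2 * A.M * j) (p := A.en s) hj2 (by simp [hp0]) hen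
  refine N_two (p := A.st s) (q := q) hM (W_false s b (A.pr_st s)) hst (by simpa using hq3)
    (hq4 (q + 1) (by omega) (by omega)) ?_
  rintro ⟨i, hi⟩
  have h5 : 0 < q - A.st s := by omega
  have h6 : q - A.st s < 2 * A.M := by omega
  have h7 : q - A.st s = 2 * A.M * (-i) := by linarith
  rw [h7] at h5 h6
  have h8 : 0 < -i := by
    by_contra h
    have : 2 * (A.M : ℤ) * (-i) ≤ 0 := mul_nonpos_of_nonneg_of_nonpos (by omega) (by omega)
    omega
  nlinarith

/-- the representative modulo `2 M` in `[en s + 1, en s + 2 M]` -/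
def rep (A : Arr n) (s : Fin n) (x : ℤ) : ℤ := A.en s + 1 + (x - A.en s - 1) % (2 * A.M)

theorem rep_le (x : ℤ) : A.en s + 1 ≤ rep A s x := by
  have hM := A.M_pos s
  have := Int.emod_nonneg (x - A.en s - 1) (show (2 * (A.M : ℤ)) ≠ 0 by omega)
  unfold rep
  omega

theorem rep_lt (x : ℤ) : rep A s x < A.en s + 1 + 2 * A.M := by
  have hM := A.M_pos s
  have := Int.emod_lt_of_pos (x - A.en s - 1) (show 0 < (2 * (A.M : ℤ)) by omega)
  unfold rep
  omega

theorem rep_dvd (x : ℤ) : (2 * A.M : ℤ) ∣ rep A s x - x := by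
  have e := Int.emod_add_mul_ediv (x - A.en s - 1) (2 * A.M)
  refine ⟨-((x - A.en s - 1) / (2 * A.M)), ?_⟩
  unfold rep
  linarith

theorem eq_rep {q x : ℤ} (h1 : A.en s + 1 ≤ q) (h2 : q < A.en s + 1 + 2 * A.M)
    (h : (2 * A.M : ℤ) ∣ q - x) : q = rep A s x := by
  have h3 := dvd_sub h (rep_dvd s x (A := A))
  have e : q - x - (rep A s x - x) = q - rep A s x := by ring
  rw [e] at h3
  have h4 := rep_le s x (A := A)
  have h5 := rep_lt s x (A := A)
  have h6 := Int.eq_zero_of_abs_lt_dvd h3 (by rw [abs_lt]; constructor <;> omega)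
  omega

theorem gap_false {q : ℤ} (h1 : A.en s + 1 ≤ q) (h2 : q ≤ A.st s + 2 * A.M) :
    A.pr s q = false :=
  (A.pr_eq_false_iff s q).2 ⟨0, by omega, by omega⟩

theorem gap_le {q : ℤ} (h1 : A.en s + 1 ≤ q) (h2 : q < A.en s + 1 + 2 * A.M)
    (h : A.pr s q = false) : q ≤ A.st s + 2 * A.M := by
  by_contra hcon
  push Not at hcon
  have : A.pr s q = true := (A.pr_iff_exists s q).2 ⟨-1, by omega, by omega⟩
  rw [h] at this
  exact absurd this (by decide)

theorem Q_extra {k : ℕ} (hs : s.val ≤ k) {b : Fin n}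
    (hQ : ∀ q, A.en s + 1 ≤ q → q ≤ A.st s + 2 * A.M → b ∈ R A s (k - s.val) q)
    (hb : A.pr s (A.st b) = false) :
    s < b ∧ A.ou k s b (A.st b) ∧
      R A s (k - s.val) (rep A s (A.st b)) = R A s (k - s.val) (rep A s (A.st b) + 1) := by
  have hgap := A.gap s
  have h1 := rep_le s (A.st b) (A := A)
  have h2 := rep_lt s (A.st b) (A := A)
  have h3 := rep_dvd s (A.st b) (A := A)
  have h4 : A.pr s (rep A s (A.st b)) = false := by rw [A.pr_congr s h3]; exact hb
  have h5 := gap_le s h1 h2 h4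
  have hsb : s < b := lt_of_mem_R s (hQ _ h1 h5)
  have h6 : rep A s (A.st b) < A.st s + 2 * A.M := by
    rcases h5.lt_or_eq with h | h
    · exact h
    · exfalso
      rw [h] at h3
      apply hsb.ne
      apply A.ss s b
      have h7 := A.two_mul_dvd h3
      have e : A.st s + 2 * A.M - A.st b = (A.st s - A.st b) + A.M * 2 := by ring
      rw [e] at h7
      have := dvd_sub h7 (dvd_mul_right (A.M : ℤ) 2)
      have e2 : A.st s - A.st b + A.M * 2 - A.M * 2 = A.st s - A.st b := by ring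
      rwa [e2] at this
  refine ⟨hsb, ⟨hb, ?_⟩, ?_⟩
  · have h7 := between_le s (hQ _ h1 h5)
    have h8 : #{d : Fin n | s < d ∧ d < b ∧ A.pr d (A.st b) = true} =
        #{d : Fin n | s < d ∧ d < b ∧ A.pr d (rep A s (A.st b)) = true} := by
      congr 1
      ext d
      rw [mem_filter, mem_filter, A.pr_congr d h3]
    rw [h8]
    omega
  · exact R_both s (only_st A (A.two_mul_dvd h3)) (hQ _ h1 h5) (hQ _ (by omega) (by omega))

theorem core {k : ℕ} (hs : s.val ≤ k) (p0 : ℤ) (D1 D2 : Finset (Fin n))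
    (hD1 : D1 ⊆ ({c : Fin n | s < c ∧ A.ou k s c (A.en c)} : Finset (Fin n)))
    (hD2 : D2 ⊆ ({c : Fin n | s < c ∧ A.iu k s c (A.en c)} : Finset (Fin n)))
    (H : ∀ b, b ∈ R A s (k - s.val) p0 →
      (¬ ∀ q, A.en s + 1 ≤ q → q ≤ A.st s + 2 * A.M → b ∈ R A s (k - s.val) q) →
      ∃ q, A.en s + 1 ≤ q ∧ q < A.st s + 2 * A.M ∧ (∀ c ∈ D1, ¬ (2 * A.M : ℤ) ∣ q - A.en c) ∧
        (∀ c ∈ D2, ¬ (2 * A.M : ℤ) ∣ q + A.M - A.en c) ∧
        ((q < p0 ∧ b ∉ R A s (k - s.val) q ∧ b ∈ R A s (k - s.val) (q + 1)) ∨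
          (p0 ≤ q ∧ b ∈ R A s (k - s.val) q ∧ b ∉ R A s (k - s.val) (q + 1)))) :
    #(R A s (k - s.val) p0) + (#D1 + #D2) ≤
      #{c : Fin n | s < c ∧ A.ou k s c (A.st c)} + #{c : Fin n | s < c ∧ A.iu k s c (A.st c)} +
      #{c : Fin n | s < c ∧ A.ou k s c (A.en c)} + #{c : Fin n | s < c ∧ A.iu k s c (A.en c)} +
      ∑ b : Fin n, (if s < b then A.N k s b - 1 else 0) +
      #{b : Fin n | s < b ∧ A.pr s (A.st b) ∧ A.W k s b (A.st b)} := by
  classical
  have hgap := A.gap s
  have hlt := A.lt s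
  choose! f hf using H
  set Q : Finset (Fin n) := {b : Fin n |
    ∀ q, A.en s + 1 ≤ q → q ≤ A.st s + 2 * A.M → b ∈ R A s (k - s.val) q} with hQdef
  have memQ : ∀ b, b ∈ Q ↔
      ∀ q, A.en s + 1 ≤ q → q ≤ A.st s + 2 * A.M → b ∈ R A s (k - s.val) q := by
    intro b; rw [hQdef, mem_filter]; simp
  set X : Finset ℤ := (R A s (k - s.val) p0 \ Q).image f with hXdef
  have hX : #X = #(R A s (k - s.val) p0 \ Q) := by
    apply card_image_of_injOn
    intro b hb b' hb' hbb
    rw [mem_coe, mem_sdiff, memQ] at hb hb'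
    have h1 := hf b hb.1 hb.2
    have h2 := hf b' hb'.1 hb'.2
    rw [← hbb] at h2
    rcases h1.2.2.2.2 with h3 | h3
    · rcases h2.2.2.2.2 with h4 | h4
      · exact R_in s h3.2.2 h3.2.1 h4.2.2 h4.2.1
      · exact absurd h3.1 (not_lt.2 h4.1)
    · rcases h2.2.2.2.2 with h4 | h4
      · exact absurd h4.1 (not_lt.2 h3.1)
      · exact R_out s h3.2.1 h3.2.2 h4.2.1 h4.2.2
  set Ex : Finset (Fin n) := Q.filter (fun b => A.pr s (A.st b) = false) with hExdef
  set Y : Finset ℤ := Ex.image (fun b => rep A s (A.st b)) with hYdef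
  have hY : #Y = #Ex := by
    apply card_image_of_injOn
    intro b _ b' _ hbb
    have h1 := rep_dvd s (A.st b) (A := A)
    have h2 := rep_dvd s (A.st b') (A := A)
    have hbb' : rep A s (A.st b) = rep A s (A.st b') := hbb
    rw [hbb'] at h1
    have h3 := A.two_mul_dvd (dvd_sub h2 h1)
    have e : rep A s (A.st b') - A.st b' - (rep A s (A.st b') - A.st b) = A.st b - A.st b' := by
      ring
    rw [e] at h3
    exact A.ss b b' h3
  have hXne : ∀ q ∈ X, R A s (k - s.val) q ≠ R A s (k - s.val) (q + 1) ∧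
      A.en s + 1 ≤ q ∧ q < A.st s + 2 * A.M ∧ (∀ c ∈ D1, ¬ (2 * A.M : ℤ) ∣ q - A.en c) ∧
        (∀ c ∈ D2, ¬ (2 * A.M : ℤ) ∣ q + A.M - A.en c) := by
    intro q hq
    rw [hXdef, mem_image] at hq
    obtain ⟨b, hb, rfl⟩ := hq
    rw [mem_sdiff, memQ] at hb
    have h1 := hf b hb.1 hb.2
    refine ⟨?_, h1.1, h1.2.1, h1.2.2.1, h1.2.2.2.1⟩
    intro he
    rcases h1.2.2.2.2 with h3 | h3
    · rw [he] at h3; exact h3.2.1 h3.2.2
    · rw [he] at h3; exact h3.2.2 h3.2.1
  have hYeq : ∀ q ∈ Y, R A s (k - s.val) q = R A s (k - s.val) (q + 1) ∧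
      ∃ c, s < c ∧ A.ou k s c (A.st c) ∧ rep A s (A.st c) = q := by
    intro q hq
    rw [hYdef, mem_image] at hq
    obtain ⟨b, hb, rfl⟩ := hq
    rw [hExdef, mem_filter, memQ] at hb
    have := Q_extra s hs hb.1 hb.2
    exact ⟨this.2.2, b, this.1, this.2.1, rfl⟩
  have hdisj : Disjoint X Y := by
    rw [disjoint_left]
    intro q h1 h2
    exact (hXne q h1).1 (hYeq q h2).1
  have hsub : X ∪ Y ⊆
      ({c : Fin n | s < c ∧ A.ou k s c (A.st c)} : Finset (Fin n)).image
        (fun c => rep A s (A.st c)) ∪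
      (({c : Fin n | s < c ∧ A.iu k s c (A.st c)} : Finset (Fin n)).image
        (fun c => rep A s (A.st c - A.M)) ∪
      ((({c : Fin n | s < c ∧ A.ou k s c (A.en c)} : Finset (Fin n)) \ D1).image
        (fun c => rep A s (A.en c)) ∪
      (({c : Fin n | s < c ∧ A.iu k s c (A.en c)} : Finset (Fin n)) \ D2).image
        (fun c => rep A s (A.en c - A.M)))) := by
    intro q hq
    rw [mem_union] at hq
    rcases hq with hq | hq
    · obtain ⟨h1, h2, h3, h4, h5⟩ := hXne q hq
      obtain ⟨c, e, hsc, he, hu⟩ := unit_of_ne s hs (gap_false s h2 h3.le) h1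
      have h3' : q < A.en s + 1 + 2 * A.M := by omega
      rcases he with he | he
      · rcases hu with hu | hu
        · apply mem_union_left
          rw [he] at hu
          exact mem_image.2 ⟨c, mem_filter.2 ⟨mem_univ _, hsc, hu.2⟩,
            (eq_rep s h2 h3' hu.1).symm⟩
        · apply mem_union_right
          apply mem_union_left
          rw [he] at hu
          refine mem_image.2 ⟨c, mem_filter.2 ⟨mem_univ _, hsc, hu.2⟩,
            (eq_rep s h2 h3' ?_).symm⟩
          have : q - (A.st c - A.M) = q + A.M - A.st c := by ring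
          rw [this]; exact hu.1
      · rcases hu with hu | hu
        · apply mem_union_right
          apply mem_union_right
          apply mem_union_left
          rw [he] at hu
          refine mem_image.2 ⟨c, mem_sdiff.2 ⟨mem_filter.2 ⟨mem_univ _, hsc, hu.2⟩, ?_⟩,
            (eq_rep s h2 h3' hu.1).symm⟩
          intro hc
          exact h4 c hc hu.1
        · apply mem_union_right
          apply mem_union_right
          apply mem_union_right
          rw [he] at hu
          refine mem_image.2 ⟨c, mem_sdiff.2 ⟨mem_filter.2 ⟨mem_univ _, hsc, hu.2⟩, ?_⟩,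
            (eq_rep s h2 h3' ?_).symm⟩
          · intro hc
            exact h5 c hc hu.1
          · have : q - (A.en c - A.M) = q + A.M - A.en c := by ring
            rw [this]; exact hu.1
    · obtain ⟨_, c, hsc, hu, hc⟩ := hYeq q hq
      apply mem_union_left
      exact mem_image.2 ⟨c, mem_filter.2 ⟨mem_univ _, hsc, hu⟩, hc⟩
  have hcard := card_le_card hsub
  rw [card_union_of_disjoint hdisj, hX, hY] at hcard
  have hcard2 := hcard.trans ((card_union_le _ _).trans (add_le_add card_image_le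
    ((card_union_le _ _).trans (add_le_add card_image_le
      ((card_union_le _ _).trans (add_le_add card_image_le card_image_le))))))
  have e1 := card_sdiff_add_card_eq_card hD1
  have e2 := card_sdiff_add_card_eq_card hD2
  -- the elements of `Q`
  have hQ : #Q ≤ ∑ b : Fin n, (if s < b then A.N k s b - 1 else 0) +
      #{b : Fin n | s < b ∧ A.pr s (A.st b) ∧ A.W k s b (A.st b)} + #Ex := by
    have hsub2 : Q ⊆ ({b : Fin n | s < b ∧ 2 ≤ A.N k s b} : Finset (Fin n)) ∪
        (({b : Fin n | s < b ∧ A.pr s (A.st b) ∧ A.W k s b (A.st b)} : Finset (Fin n)) ∪ Ex) := by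
      intro b hb
      have hb' := (memQ b).1 hb
      have hsb : s < b := lt_of_mem_R s (hb' (A.en s + 1) le_rfl (by omega))
      rcases Q_cases s hb' with h | h | h
      · apply mem_union_left
        exact mem_filter.2 ⟨mem_univ _, hsb, h⟩
      · apply mem_union_right
        apply mem_union_left
        exact mem_filter.2 ⟨mem_univ _, hsb, h⟩
      · apply mem_union_right
        apply mem_union_right
        exact mem_filter.2 ⟨hb, h⟩
    have h1 : #({b : Fin n | s < b ∧ 2 ≤ A.N k s b} : Finset (Fin n)) ≤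
        ∑ b : Fin n, (if s < b then A.N k s b - 1 else 0) := by
      rw [card_filter]
      apply sum_le_sum
      intro b _
      split_ifs with h1 h2 h2
      · omega
      · exact absurd h1.1 h2
      · omega
      · omega
    have h2 := card_le_card hsub2
    have h3 := h2.trans ((card_union_le _ _).trans (add_le_add h1 (card_union_le _ _)))
    omega
  have h4 : #(R A s (k - s.val) p0) ≤ #(R A s (k - s.val) p0 \ Q) + #Q := by
    have := card_le_card_sdiff_add_card (s := R A s (k - s.val) p0) (t := Q)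
    omega
  omega

end Pool.Agent.E8helper10.AV
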