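import Mathlib

/-!
AV-CLAIM (helper57's project on arc visibility graphs): the first `K + 1` elements of a finite set
which is ordered by a key, and what happens when one element is moved.
-/

set_option autoImplicit false

namespace Pool.Agent.E8helper10.AV

open Finset

variable {α : Type*} [DecidableEq α]

/-- the rank of `b` in `S` -/
def rk (S : Finset α) (key : α → ℕ) (b : α) : ℕ := #{d ∈ S | key d < key b}

/-- the first `K + 1` elements of `S` -/
def fs (K : ℕ) (S : Finset α) (key : α → ℕ) : Finset α := {b ∈ S | rk S key b ≤ K}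

theorem mem_fs {K : ℕ} {S : Finset α} {key : α → ℕ} {b : α} :
    b ∈ fs K S key ↔ b ∈ S ∧ rk S key b ≤ K := by
  unfold fs; rw [mem_filter]

theorem rk_lt_card {S : Finset α} {key : α → ℕ} {b : α} (hb : b ∈ S) : rk S key b < #S := by
  apply card_lt_card
  refine ⟨filter_subset _ _, fun h => ?_⟩
  have := h hb
  rw [mem_filter] at this
  exact lt_irrefl _ this.2

theorem rk_lt_rk {S : Finset α} {key : α → ℕ} {b b' : α} (hb : b ∈ S) (h : key b < key b') :
    rk S key b < rk S key b' := by
  apply card_lt_card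
  refine ⟨fun d hd => ?_, fun h' => ?_⟩
  · rw [mem_filter] at hd ⊢
    exact ⟨hd.1, hd.2.trans h⟩
  · have : b ∈ ({d ∈ S | key d < key b'} : Finset α) := by
      rw [mem_filter]; exact ⟨hb, h⟩
    have := h' this
    rw [mem_filter] at this
    exact lt_irrefl _ this.2

theorem rk_inj {S : Finset α} {key : α → ℕ} (hk : Function.Injective key) {b b' : α}
    (hb : b ∈ S) (hb' : b' ∈ S) (h : rk S key b = rk S key b') : b = b' := by
  rcases lt_trichotomy (key b) (key b') with h1 | h1 | h1
  · exact absurd h (rk_lt_rk hb h1).ne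
  · exact hk h1
  · exact absurd h.symm (rk_lt_rk hb' h1).ne

theorem card_fs {K : ℕ} {S : Finset α} {key : α → ℕ} (hk : Function.Injective key) :
    min (K + 1) #S ≤ #(fs K S key) := by
  have h1 : S.image (rk S key) = range #S := by
    apply eq_of_subset_of_card_le
    · intro j hj
      obtain ⟨b, hb, rfl⟩ := mem_image.1 hj
      exact mem_range.2 (rk_lt_card hb)
    · rw [card_range, card_image_of_injOn]
      intro b hb b' hb' h
      exact rk_inj hk hb hb' h
  have h2 : range (min (K + 1) #S) ⊆ (fs K S key).image (rk S key) := by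
    intro j hj
    rw [mem_range] at hj
    have h3 : j ∈ S.image (rk S key) := by
      rw [h1, mem_range]; omega
    obtain ⟨b, hb, hbj⟩ := mem_image.1 h3
    refine mem_image.2 ⟨b, mem_fs.2 ⟨hb, by omega⟩, hbj⟩
  calc min (K + 1) #S = #(range (min (K + 1) #S)) := (card_range _).symm
    _ ≤ #((fs K S key).image (rk S key)) := card_le_card h2
    _ ≤ #(fs K S key) := card_image_le

/-- if `S` is small then `fs K S = S` -/
theorem fs_eq_self {K : ℕ} {S : Finset α} {key : α → ℕ} (h : #S ≤ K + 1) : fs K S key = S := by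
  ext b
  rw [mem_fs]
  refine ⟨fun h => h.1, fun hb => ⟨hb, ?_⟩⟩
  have := rk_lt_card (key := key) hb
  omega

theorem rk_erase_le {S : Finset α} {key : α → ℕ} (c b : α) : rk (S.erase c) key b ≤ rk S key b := by
  apply card_le_card
  intro d hd
  rw [mem_filter, mem_erase] at hd
  rw [mem_filter]
  exact ⟨hd.1.2, hd.2⟩

/-- case `c` before `b` -/
theorem rk_case1 {S : Finset α} {key : α → ℕ} {c b : α} (hc : c ∈ S) (h : key c < key b) :
    rk S key b = rk (S.erase c) key b + 1 ∧ rk S key c ≤ rk (S.erase c) key b := by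
  constructor
  · have : ({d ∈ S | key d < key b} : Finset α) =
        insert c ({d ∈ S.erase c | key d < key b} : Finset α) := by
      ext d
      rw [mem_insert, mem_filter, mem_filter, mem_erase]
      constructor
      · rintro ⟨h1, h2⟩
        by_cases hd : d = c
        · exact Or.inl hd
        · exact Or.inr ⟨⟨hd, h1⟩, h2⟩
      · rintro (h1 | h1)
        · subst h1; exact ⟨hc, h⟩
        · exact ⟨h1.1.2, h1.2⟩
    unfold rk
    rw [this, card_insert_of_notMem]
    rw [mem_filter, mem_erase]
    tauto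
  · apply card_le_card
    intro d hd
    rw [mem_filter] at hd
    rw [mem_filter, mem_erase]
    refine ⟨⟨?_, hd.1⟩, hd.2.trans h⟩
    rintro rfl
    exact lt_irrefl _ hd.2

/-- case `c` after `b` -/
theorem rk_case2 {S : Finset α} {key : α → ℕ} {c b : α} (hb : b ∈ S) (h : key b < key c) :
    rk S key b = rk (S.erase c) key b ∧ rk (S.erase c) key b + 1 ≤ rk S key c := by
  have e : rk S key b = rk (S.erase c) key b := by
    unfold rk
    congr 1
    ext d
    rw [mem_filter, mem_filter, mem_erase]
    constructor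
    · rintro ⟨h1, h2⟩
      refine ⟨⟨?_, h1⟩, h2⟩
      rintro rfl
      omega
    · rintro ⟨h1, h2⟩
      exact ⟨h1.2, h2⟩
  refine ⟨e, ?_⟩
  rw [← e]
  exact rk_lt_rk hb h

theorem rk_case0 {S : Finset α} {key : α → ℕ} {c b : α} (hc : c ∉ S) :
    rk S key b = rk (S.erase c) key b := by
  rw [erase_eq_of_notMem hc]

theorem fs_of_mem {K : ℕ} {S : Finset α} {key : α → ℕ} (hk : Function.Injective key) {c b : α}
    (hc : c ∈ fs K S key) : b ∈ fs K S key ↔
      b = c ∨ (b ∈ S.erase c ∧ rk (S.erase c) key b < K) := by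
  by_cases hbc : b = c
  · subst hbc; simp [hc]
  have hcS := (mem_fs.1 hc).1
  have hcK := (mem_fs.1 hc).2
  rw [mem_fs, mem_erase]
  constructor
  · rintro ⟨h1, h2⟩
    refine Or.inr ⟨⟨hbc, h1⟩, ?_⟩
    rcases lt_trichotomy (key c) (key b) with h3 | h3 | h3
    · have := rk_case1 hcS h3; omega
    · exact absurd (hk h3).symm hbc
    · have := rk_case2 h1 h3; omega
  · rintro (h1 | h1)
    · exact absurd h1 hbc
    · refine ⟨h1.1.2, ?_⟩
      rcases lt_trichotomy (key c) (key b) with h3 | h3 | h3
      · have := rk_case1 hcS h3; omega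
      · exact absurd (hk h3).symm hbc
      · have := rk_case2 h1.1.2 h3; omega

theorem fs_of_notMem {K : ℕ} {S : Finset α} {key : α → ℕ} (hk : Function.Injective key) {c b : α}
    (hc : c ∉ fs K S key) : b ∈ fs K S key ↔ b ∈ S.erase c ∧ rk (S.erase c) key b ≤ K := by
  by_cases hbc : b = c
  · subst hbc; simp [hc]
  rw [mem_fs, mem_erase]
  rw [mem_fs, not_and, not_le] at hc
  by_cases hcS : c ∈ S
  · have hcK := hc hcS
    constructor
    · rintro ⟨h1, h2⟩
      refine ⟨⟨hbc, h1⟩, ?_⟩
      have := rk_erase_le (S := S) (key := key) c b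
      omega
    · rintro ⟨⟨_, h1⟩, h2⟩
      refine ⟨h1, ?_⟩
      rcases lt_trichotomy (key c) (key b) with h3 | h3 | h3
      · have := rk_case1 hcS h3; omega
      · exact absurd (hk h3).symm hbc
      · have := rk_case2 h1 h3; omega
  · rw [← rk_case0 hcS]
    constructor
    · rintro ⟨h1, h2⟩; exact ⟨⟨hbc, h1⟩, h2⟩
    · rintro ⟨h1, h2⟩; exact ⟨h1.2, h2⟩

theorem rk_congr {T : Finset α} {key key' : α → ℕ} (h : ∀ d ∈ T, key d = key' d) {b : α}
    (hb : b ∈ T) : rk T key b = rk T key' b := by
  unfold rk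
  congr 1
  apply filter_congr
  intro d hd
  rw [h d hd, h b hb]

section two

variable {K : ℕ} {S S' : Finset α} {key key' : α → ℕ} {c : α}

theorem fs_both (hk : Function.Injective key) (hk' : Function.Injective key')
    (hS : S.erase c = S'.erase c) (he : ∀ d ∈ S.erase c, key d = key' d)
    (h : c ∈ fs K S key) (h' : c ∈ fs K S' key') : fs K S key = fs K S' key' := by
  ext b
  rw [fs_of_mem hk h, fs_of_mem hk' h', ← hS]
  constructor
  · rintro (h1 | ⟨h1, h2⟩)
    · exact Or.inl h1
    · refine Or.inr ⟨h1, ?_⟩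
      rwa [← rk_congr he h1]
  · rintro (h1 | ⟨h1, h2⟩)
    · exact Or.inl h1
    · refine Or.inr ⟨h1, ?_⟩
      rwa [rk_congr he h1]

theorem fs_none (hk : Function.Injective key) (hk' : Function.Injective key')
    (hS : S.erase c = S'.erase c) (he : ∀ d ∈ S.erase c, key d = key' d)
    (h : c ∉ fs K S key) (h' : c ∉ fs K S' key') : fs K S key = fs K S' key' := by
  ext b
  rw [fs_of_notMem hk h, fs_of_notMem hk' h', ← hS]
  constructor
  · rintro ⟨h1, h2⟩
    exact ⟨h1, by rwa [← rk_congr he h1]⟩
  · rintro ⟨h1, h2⟩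
    exact ⟨h1, by rwa [rk_congr he h1]⟩

theorem fs_diff (hk : Function.Injective key) (hk' : Function.Injective key')
    (hS : S.erase c = S'.erase c) (he : ∀ d ∈ S.erase c, key d = key' d) {b b' : α}
    (hb : b ∈ fs K S key) (hb1 : b ∉ fs K S' key') (hb' : b' ∈ fs K S key)
    (hb1' : b' ∉ fs K S' key') : b = b' := by
  by_cases h : c ∈ fs K S key
  · by_cases h' : c ∈ fs K S' key'
    · rw [fs_both hk hk' hS he h h'] at hb
      exact absurd hb hb1
    · have key1 : ∀ x, x ∈ fs K S key → x ∉ fs K S' key' → x = c := by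
        intro x hx hx'
        rw [fs_of_mem hk h] at hx
        rw [fs_of_notMem hk' h', ← hS] at hx'
        rcases hx with hx | ⟨h1, h2⟩
        · exact hx
        · exact absurd ⟨h1, by rw [← rk_congr he h1]; omega⟩ hx'
      rw [key1 b hb hb1, key1 b' hb' hb1']
  · by_cases h' : c ∈ fs K S' key'
    · have key1 : ∀ x, x ∈ fs K S key → x ∉ fs K S' key' →
          x ∈ S.erase c ∧ rk (S.erase c) key x = K := by
        intro x hx hx'
        rw [fs_of_notMem hk h] at hx
        rw [fs_of_mem hk' h', ← hS] at hx'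
        refine ⟨hx.1, ?_⟩
        by_contra h3
        exact hx' (Or.inr ⟨hx.1, by rw [← rk_congr he hx.1]; have := hx.2; omega⟩)
      obtain ⟨h1, h2⟩ := key1 b hb hb1
      obtain ⟨h3, h4⟩ := key1 b' hb' hb1'
      exact rk_inj hk h1 h3 (h2.trans h4.symm)
    · rw [fs_none hk hk' hS he h h'] at hb
      exact absurd hb hb1

end two

end Pool.Agent.E8helper10.AV
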