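import Pool.Agent.E8helper57.AV.Base
import Pool.Agent.E8helper10.AV.Fst

/-!
AV-CLAIM: the first `K + 1` arcs of the line of `q`, and the steps `q → q + 1`.
-/

set_option autoImplicit false

namespace Pool.Agent.E8helper10.AV

open Finset Pool.Agent.E8helper57.AV

variable {n : ℕ} (A : Arr n) (s : Fin n)

/-- the arcs `> s` of the line of `q` -/
def Sq (q : ℤ) : Finset (Fin n) := {b | s < b ∧ (A.pr b q = true ∨ A.pr b (q + A.M) = true)}

/-- the key of the order on the line of `q` -/
def ky (q : ℤ) (b : Fin n) : ℕ := if A.pr b q = true then b.val else 2 * n - b.val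

/-- the first `K + 1` arcs of the line of `q` -/
def R (K : ℕ) (q : ℤ) : Finset (Fin n) := fs K (Sq A s q) (ky A q)

theorem mem_Sq {q : ℤ} {b : Fin n} :
    b ∈ Sq A s q ↔ s < b ∧ (A.pr b q = true ∨ A.pr b (q + A.M) = true) := by
  unfold Sq
  simp only [mem_filter, mem_univ, true_and]

theorem ky_inj (q : ℤ) : Function.Injective (ky A q) := by
  intro b b' h
  unfold ky at h
  have h1 := b.isLt
  have h2 := b'.isLt
  apply Fin.ext
  split_ifs at h <;> omega

theorem dep1 {q : ℤ} {b : Fin n} (h : A.pr b q = true) :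
    rk (Sq A s q) (ky A q) b = #{d : Fin n | s < d ∧ d < b ∧ A.pr d q = true} := by
  unfold rk
  congr 1
  ext d
  rw [mem_filter, mem_Sq, mem_filter]
  unfold ky
  rw [if_pos h]
  have h1 := b.isLt
  have h2 := d.isLt
  simp only [mem_univ, true_and]
  constructor
  · rintro ⟨⟨h3, h4⟩, h5⟩
    by_cases h6 : A.pr d q = true
    · rw [if_pos h6] at h5
      exact ⟨h3, h5, h6⟩
    · rw [if_neg h6] at h5
      omega
  · rintro ⟨h3, h4, h5⟩
    rw [if_pos h5]
    exact ⟨⟨h3, Or.inl h5⟩, h4⟩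

theorem dep2 {q : ℤ} {b : Fin n} (h : A.pr b q = false) :
    rk (Sq A s q) (ky A q) b = #{d : Fin n | s < d ∧ d ≠ b ∧
      (A.pr d q = true ∨ (b < d ∧ A.pr d (q + A.M) = true))} := by
  unfold rk
  congr 1
  ext d
  rw [mem_filter, mem_Sq, mem_filter]
  unfold ky
  have h0 : ¬ A.pr b q = true := by rw [h]; decide
  rw [if_neg h0]
  have h1 := b.isLt
  have h2 := d.isLt
  simp only [mem_univ, true_and]
  constructor
  · rintro ⟨⟨h3, h4⟩, h5⟩
    by_cases h6 : A.pr d q = true
    · refine ⟨h3, ?_, Or.inl h6⟩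
      rintro rfl
      exact h0 h6
    · rw [if_neg h6] at h5
      have h7 : b < d := by rw [Fin.lt_def]; omega
      refine ⟨h3, h7.ne', Or.inr ⟨h7, ?_⟩⟩
      rcases h4 with h4 | h4
      · exact absurd h4 h6
      · exact h4
  · rintro ⟨h3, h4, h5⟩
    by_cases h6 : A.pr d q = true
    · rw [if_pos h6]
      refine ⟨⟨h3, Or.inl h6⟩, by omega⟩
    · rw [if_neg h6]
      rcases h5 with h5 | h5
      · exact absurd h5 h6
      · refine ⟨⟨h3, Or.inr h5.2⟩, ?_⟩
        have := h5.1
        rw [Fin.lt_def] at this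
        omega

/-- `c` is the only arc which changes on the line of `q` at the step `q → q + 1` -/
def Only (c : Fin n) (q : ℤ) : Prop :=
  ∀ d, d ≠ c → A.pr d (q + 1) = A.pr d q ∧ A.pr d (q + 1 + A.M) = A.pr d (q + A.M)

theorem only_st {c : Fin n} {q : ℤ} (h : (A.M : ℤ) ∣ q - A.st c) : Only A c q := by
  intro d hd
  refine ⟨A.pr_succ_eq_of_dvd_st hd h, ?_⟩
  have h1 : (A.M : ℤ) ∣ (q + A.M) - A.st c := by
    have : (q + A.M) - A.st c = (q - A.st c) + A.M := by ring
    rw [this]; exact dvd_add h dvd_rfl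
  rw [add_right_comm]
  exact A.pr_succ_eq_of_dvd_st hd h1

theorem only_en {c : Fin n} {q : ℤ} (h : (A.M : ℤ) ∣ q - A.en c) : Only A c q := by
  intro d hd
  refine ⟨A.pr_succ_eq_of_dvd_en hd h, ?_⟩
  have h1 : (A.M : ℤ) ∣ (q + A.M) - A.en c := by
    have : (q + A.M) - A.en c = (q - A.en c) + A.M := by ring
    rw [this]; exact dvd_add h dvd_rfl
  rw [add_right_comm]
  exact A.pr_succ_eq_of_dvd_en hd h1

variable {A}

theorem only_erase {c : Fin n} {q : ℤ} (h : Only A c q) :
    (Sq A s q).erase c = (Sq A s (q + 1)).erase c := by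
  ext d
  rw [mem_erase, mem_erase, mem_Sq, mem_Sq]
  constructor
  · rintro ⟨h1, h2⟩
    rw [(h d h1).1, (h d h1).2]
    exact ⟨h1, h2⟩
  · rintro ⟨h1, h2⟩
    rw [(h d h1).1, (h d h1).2] at h2
    exact ⟨h1, h2⟩

theorem only_ky {c : Fin n} {q : ℤ} (h : Only A c q) :
    ∀ d ∈ (Sq A s q).erase c, ky A q d = ky A (q + 1) d := by
  intro d hd
  unfold ky
  rw [(h d (mem_erase.1 hd).1).1]

theorem no_event {q : ℤ} {K : ℕ}
    (h : ∀ c, ¬ (A.M : ℤ) ∣ q - A.st c ∧ ¬ (A.M : ℤ) ∣ q - A.en c) :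
    R A s K q = R A s K (q + 1) := by
  have h1 := A.side_succ_of_no_event q h
  have h2 := A.side_succ_of_no_event (q + A.M) (fun c => by
    constructor
    · intro h3
      apply (h c).1
      have := dvd_sub h3 (dvd_refl (A.M : ℤ))
      have e : q + A.M - A.st c - A.M = q - A.st c := by ring
      rwa [e] at this
    · intro h3
      apply (h c).2
      have := dvd_sub h3 (dvd_refl (A.M : ℤ))
      have e : q + A.M - A.en c - A.M = q - A.en c := by ring
      rwa [e] at this)
  have e1 : ∀ c, A.pr c (q + 1) = A.pr c q := fun c => congrFun h1 c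
  have e2 : ∀ c, A.pr c (q + 1 + A.M) = A.pr c (q + A.M) := fun c => by
    rw [add_right_comm]; exact congrFun h2 c
  unfold R
  have e3 : Sq A s q = Sq A s (q + 1) := by
    ext d; rw [mem_Sq, mem_Sq, e1, e2]
  have e4 : ky A q = ky A (q + 1) := by
    funext d; unfold ky; rw [e1]
  rw [e3, e4]

/-- either nothing changes or there is an event -/
theorem event_cases (q : ℤ) (K : ℕ) : R A s K q = R A s K (q + 1) ∨
    ∃ c e, (e = A.st c ∨ e = A.en c) ∧ (A.M : ℤ) ∣ q - e ∧ Only A c q := by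
  by_cases h : ∀ c, ¬ (A.M : ℤ) ∣ q - A.st c ∧ ¬ (A.M : ℤ) ∣ q - A.en c
  · exact Or.inl (no_event s h)
  · right
    push Not at h
    obtain ⟨c, hc⟩ := h
    by_cases h1 : (A.M : ℤ) ∣ q - A.st c
    · exact ⟨c, A.st c, Or.inl rfl, h1, only_st A h1⟩
    · exact ⟨c, A.en c, Or.inr rfl, hc h1, only_en A (hc h1)⟩

theorem R_out {q : ℤ} {K : ℕ} {b b' : Fin n} (hb : b ∈ R A s K q) (hb1 : b ∉ R A s K (q + 1))
    (hb' : b' ∈ R A s K q) (hb1' : b' ∉ R A s K (q + 1)) : b = b' := by
  rcases event_cases s q K with h | ⟨c, e, _, _, h⟩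
  · rw [h] at hb; exact absurd hb hb1
  · exact fs_diff (ky_inj A q) (ky_inj A (q + 1)) (only_erase s h) (only_ky s h) hb hb1 hb' hb1'

theorem R_in {q : ℤ} {K : ℕ} {b b' : Fin n} (hb : b ∈ R A s K (q + 1)) (hb1 : b ∉ R A s K q)
    (hb' : b' ∈ R A s K (q + 1)) (hb1' : b' ∉ R A s K q) : b = b' := by
  rcases event_cases s q K with h | ⟨c, e, _, _, h⟩
  · rw [← h] at hb; exact absurd hb hb1
  · refine fs_diff (ky_inj A (q + 1)) (ky_inj A q) (only_erase s h).symm (fun d hd => ?_)
      hb hb1 hb' hb1'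
    rw [← only_erase s h] at hd
    exact (only_ky s h d hd).symm

theorem R_only {q : ℤ} {K : ℕ} {c : Fin n} (h : Only A c q) (hne : R A s K q ≠ R A s K (q + 1)) :
    c ∈ R A s K q ∨ c ∈ R A s K (q + 1) := by
  by_contra hcon
  push Not at hcon
  exact hne (fs_none (ky_inj A q) (ky_inj A (q + 1)) (only_erase s h) (only_ky s h)
    hcon.1 hcon.2)

theorem R_both {q : ℤ} {K : ℕ} {c : Fin n} (h : Only A c q) (h1 : c ∈ R A s K q)
    (h2 : c ∈ R A s K (q + 1)) : R A s K q = R A s K (q + 1) :=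
  fs_both (ky_inj A q) (ky_inj A (q + 1)) (only_erase s h) (only_ky s h) h1 h2

theorem lt_of_mem_R {q : ℤ} {K : ℕ} {b : Fin n} (h : b ∈ R A s K q) : s < b :=
  ((mem_Sq A s).1 (mem_fs.1 h).1).1

/-- the number of arcs between `s` and `c` on the side of `q` is at most the depth -/
theorem between_le {q : ℤ} {K : ℕ} {c : Fin n} (h : c ∈ R A s K q) :
    #{d : Fin n | s < d ∧ d < c ∧ A.pr d q = true} ≤ K := by
  have h1 := (mem_fs.1 h).2
  by_cases hc : A.pr c q = true
  · rwa [dep1 A s hc] at h1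
  · rw [dep2 A s (by simpa using hc)] at h1
    refine le_trans (card_le_card fun d hd => ?_) h1
    rw [mem_filter] at hd ⊢
    exact ⟨hd.1, hd.2.1, hd.2.2.1.ne, Or.inl hd.2.2.2⟩

/-- **units** -/
theorem unit_of_ne {q : ℤ} {k : ℕ} (hs : s.val ≤ k) (hsq : A.pr s q = false)
    (hne : R A s (k - s.val) q ≠ R A s (k - s.val) (q + 1)) :
    ∃ c e, s < c ∧ (e = A.st c ∨ e = A.en c) ∧
      (((2 * A.M : ℤ) ∣ q - e ∧ A.ou k s c e) ∨ ((2 * A.M : ℤ) ∣ q + A.M - e ∧ A.iu k s c e)) := by
  rcases event_cases s q (k - s.val) with h | ⟨c, e, he, hdvd, h⟩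
  · exact absurd h hne
  have hmem := R_only s h hne
  have hsc : s < c := by
    rcases hmem with h1 | h1
    · exact lt_of_mem_R s h1
    · exact lt_of_mem_R s h1
  refine ⟨c, e, hsc, he, ?_⟩
  obtain ⟨j, hj⟩ := hdvd
  rcases Int.even_or_odd' j with ⟨i, hi | hi⟩
  · left
    have h2 : (2 * A.M : ℤ) ∣ q - e := ⟨i, by rw [hj, hi]; ring⟩
    refine ⟨h2, ?_, ?_⟩
    · rw [← A.pr_congr s h2]; exact hsq
    · have h3 : #{d : Fin n | s < d ∧ d < c ∧ A.pr d q = true} ≤ k - s.val := by
        rcases hmem with h1 | h1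
        · exact between_le s h1
        · have := between_le s h1
          refine le_trans (card_le_card fun d hd => ?_) this
          rw [mem_filter] at hd ⊢
          refine ⟨hd.1, hd.2.1, hd.2.2.1, ?_⟩
          rw [(h d hd.2.2.1.ne).1]
          exact hd.2.2.2
      have h4 : #{d : Fin n | s < d ∧ d < c ∧ A.pr d e = true} =
          #{d : Fin n | s < d ∧ d < c ∧ A.pr d q = true} := by
        congr 1
        ext d
        rw [mem_filter, mem_filter, A.pr_congr d h2]
      rw [h4]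
      omega
  · right
    have h2 : (2 * A.M : ℤ) ∣ q + A.M - e := ⟨i + 1, by
      have : q + A.M - e = (q - e) + A.M := by ring
      rw [this, hj, hi]; ring⟩
    have h2' : (2 * A.M : ℤ) ∣ q - (e + A.M) := ⟨i, by
      have : q - (e + A.M) = (q - e) - A.M := by ring
      rw [this, hj, hi]; ring⟩
    have h2'' : (2 * A.M : ℤ) ∣ q + 1 - (e + A.M + 1) := by
      have : q + 1 - (e + A.M + 1) = q - (e + A.M) := by ring
      rwa [this]
    have hcc : A.pr c (q + 1) = A.pr c q := by
      rw [A.pr_congr c h2', A.pr_congr c h2'']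
      rcases he with he | he
      · rw [he]; exact A.pr_st_opp_succ c
      · rw [he]; exact A.pr_en_opp_succ c
    have hcq : A.pr c q = false := by
      by_contra hcon
      have hcon : A.pr c q = true := by simpa using hcon
      apply hne
      have e1 : ∀ d, A.pr d (q + 1) = A.pr d q := by
        intro d
        by_cases hd : d = c
        · rw [hd, hcc]
        · exact (h d hd).1
      have e3 : Sq A s q = Sq A s (q + 1) := by
        ext d
        rw [mem_Sq, mem_Sq, e1]
        by_cases hd : d = c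
        · rw [hd]; simp [hcon]
        · rw [(h d hd).2]
      have e4 : ky A q = ky A (q + 1) := by
        funext d; unfold ky; rw [e1]
      unfold R
      rw [e3, e4]
    refine ⟨h2, ?_, ?_, ?_⟩
    · rw [← A.pr_congr s h2']; exact hsq
    · rw [← A.pr_congr c h2']; exact hcq
    · have h3 : #{d : Fin n | s < d ∧ d ≠ c ∧
          (A.pr d q = true ∨ (c < d ∧ A.pr d (q + A.M) = true))} ≤ k - s.val := by
        rcases hmem with h1 | h1
        · have := (mem_fs.1 h1).2
          rwa [dep2 A s hcq] at this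
        · have := (mem_fs.1 h1).2
          rw [dep2 A s (hcc.trans hcq)] at this
          refine le_trans (card_le_card fun d hd => ?_) this
          rw [mem_filter] at hd ⊢
          refine ⟨hd.1, hd.2.1, hd.2.2.1, ?_⟩
          rw [(h d hd.2.2.1).1, (h d hd.2.2.1).2]
          exact hd.2.2.2
      have h4 : #{d : Fin n | s < d ∧ d ≠ c ∧
          (A.pr d (e + A.M) = true ∨ (c < d ∧ A.pr d e = true))} =
          #{d : Fin n | s < d ∧ d ≠ c ∧
          (A.pr d q = true ∨ (c < d ∧ A.pr d (q + A.M) = true))} := by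
        congr 1
        ext d
        rw [mem_filter, mem_filter, A.pr_congr d h2, A.pr_congr d h2']
      rw [h4]
      omega

/-- **removed steps**: the line at an event of `du` -/
theorem du_line {q : ℤ} {k : ℕ} {c : Fin n} (h : A.du k s c (A.en c)) (hq : (A.M : ℤ) ∣ q - A.en c) :
    A.pr c (q + 1) = false ∧ A.pr c (q + 1 + A.M) = false ∧
    Sq A s (q + 1) = ({d : Fin n | s < d ∧ d ≠ c ∧
      (A.pr d (A.en c) = true ∨ A.pr d (A.en c + A.M) = true)} : Finset (Fin n)) ∧
    Sq A s q ⊆ insert c (Sq A s (q + 1)) := by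
  have ho := only_en A hq
  obtain ⟨_, _, h3, _⟩ := h
  obtain ⟨j, hj⟩ := hq
  rcases Int.even_or_odd' j with ⟨i, hi | hi⟩
  · have h2 : (2 * A.M : ℤ) ∣ q - A.en c := ⟨i, by rw [hj, hi]; ring⟩
    have h2' : (2 * A.M : ℤ) ∣ q + A.M - (A.en c + A.M) := by
      have : q + A.M - (A.en c + A.M) = q - A.en c := by ring
      rwa [this]
    have a1 : A.pr c (q + 1) = false := by
      have : (2 * A.M : ℤ) ∣ q + 1 - (A.en c + 1) := by
        have : q + 1 - (A.en c + 1) = q - A.en c := by ring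
        rwa [this]
      rw [A.pr_congr c this]; exact A.pr_en_succ c
    have a2 : A.pr c (q + 1 + A.M) = false := by
      have : (2 * A.M : ℤ) ∣ q + 1 + A.M - (A.en c + A.M + 1) := by
        have : q + 1 + A.M - (A.en c + A.M + 1) = q - A.en c := by ring
        rwa [this]
      rw [A.pr_congr c this, A.pr_en_opp_succ c]; exact h3
    refine ⟨a1, a2, ?_, ?_⟩
    · ext d
      rw [mem_Sq, mem_filter]
      by_cases hd : d = c
      · rw [hd, a1, a2]; simp
      · rw [(ho d hd).1, (ho d hd).2, A.pr_congr d h2, A.pr_congr d h2']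
        simp [hd]
    · intro d hd
      rw [mem_insert]
      by_cases hdc : d = c
      · exact Or.inl hdc
      · right
        rw [mem_Sq] at hd ⊢
        rw [(ho d hdc).1, (ho d hdc).2]
        exact hd
  · have h2 : (2 * A.M : ℤ) ∣ q + A.M - A.en c := ⟨i + 1, by
      have : q + A.M - A.en c = (q - A.en c) + A.M := by ring
      rw [this, hj, hi]; ring⟩
    have h2' : (2 * A.M : ℤ) ∣ q - (A.en c + A.M) := ⟨i, by
      have : q - (A.en c + A.M) = (q - A.en c) - A.M := by ring
      rw [this, hj, hi]; ring⟩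
    have a1 : A.pr c (q + 1) = false := by
      have : (2 * A.M : ℤ) ∣ q + 1 - (A.en c + A.M + 1) := by
        have : q + 1 - (A.en c + A.M + 1) = q - (A.en c + A.M) := by ring
        rwa [this]
      rw [A.pr_congr c this, A.pr_en_opp_succ c]; exact h3
    have a2 : A.pr c (q + 1 + A.M) = false := by
      have : (2 * A.M : ℤ) ∣ q + 1 + A.M - (A.en c + 1) := by
        have : q + 1 + A.M - (A.en c + 1) = q + A.M - A.en c := by ring
        rwa [this]
      rw [A.pr_congr c this]; exact A.pr_en_succ c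
    refine ⟨a1, a2, ?_, ?_⟩
    · ext d
      rw [mem_Sq, mem_filter]
      by_cases hd : d = c
      · rw [hd, a1, a2]; simp
      · rw [(ho d hd).1, (ho d hd).2, A.pr_congr d h2, A.pr_congr d h2']
        simp [hd, or_comm]
    · intro d hd
      rw [mem_insert]
      by_cases hdc : d = c
      · exact Or.inl hdc
      · right
        rw [mem_Sq] at hd ⊢
        rw [(ho d hdc).1, (ho d hdc).2]
        exact hd

theorem du_notMem {q : ℤ} {k : ℕ} {c : Fin n} (h : A.du k s c (A.en c))
    (hq : (A.M : ℤ) ∣ q - A.en c) (K : ℕ) : c ∉ R A s K (q + 1) := by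
  intro hc
  obtain ⟨a1, a2, _, _⟩ := du_line s h hq
  have := ((mem_Sq A s).1 (mem_fs.1 hc).1).2
  rw [a1, a2] at this
  simp at this

theorem du_R {q : ℤ} {k : ℕ} (hs : s.val ≤ k) {c : Fin n} (h : A.du k s c (A.en c))
    (hq : (A.M : ℤ) ∣ q - A.en c) :
    (∀ b ∈ R A s (k - s.val) (q + 1), b ∈ R A s (k - s.val) q) ∧
    ∀ b ∈ R A s (k - s.val) q, b ≠ c → b ∈ R A s (k - s.val) (q + 1) := by
  obtain ⟨a1, a2, a3, a4⟩ := du_line s h hq
  have ho := only_en A hq
  have h1 : #(Sq A s (q + 1)) ≤ k - s.val := by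
    rw [a3]
    have := h.2.2.2
    omega
  have h2 : #(Sq A s q) ≤ k - s.val + 1 :=
    (card_le_card a4).trans ((card_insert_le _ _).trans (by omega))
  unfold R
  rw [fs_eq_self h2, fs_eq_self (show #(Sq A s (q + 1)) ≤ k - s.val + 1 by omega)]
  constructor
  · intro b hb
    have hbc : b ≠ c := by
      rintro rfl
      rw [mem_Sq, a1, a2] at hb
      simp at hb
    rw [mem_Sq] at hb ⊢
    rwa [(ho b hbc).1, (ho b hbc).2] at hb
  · intro b hb hbc
    have := a4 hb
    rw [mem_insert] at this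
    rcases this with h3 | h3
    · exact absurd h3 hbc
    · exact h3

end Pool.Agent.E8helper10.AV
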